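import Mathlib

/-!
Plurisubharmonic functions on a subset of complex Euclidean space, residual functions and
rooftop envelopes.
-/

namespace Pool.Agent.Lib.MP_eb294e_an

open Filter Topology

variable {n : ℕ}

/-- `u : D → [-∞, ∞)` is plurisubharmonic and not identically `-∞`: upper semicontinuous, and
for every closed complex disc `a + ζ b` (`‖ζ‖ ≤ 1`) in `D` the value `u a` is at most the circle
mean of `u`, the latter being the infimum over real `M` of the circle means of `max u M`. -/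
def IsPSH (D : Set (EuclideanSpace ℂ (Fin n))) (u : EuclideanSpace ℂ (Fin n) → EReal) : Prop :=
  UpperSemicontinuousOn u D ∧ (∀ x ∈ D, u x ≠ ⊤) ∧ (∃ x ∈ D, u x ≠ ⊥) ∧
    ∀ a b : EuclideanSpace ℂ (Fin n), (∀ ζ : ℂ, ‖ζ‖ ≤ 1 → a + ζ • b ∈ D) → ∀ M : ℝ,
      u a ≤ (((2 * Real.pi)⁻¹ * ∫ θ in (0 : ℝ)..(2 * Real.pi),
        (max (u (a + Complex.exp ((θ : ℂ) * Complex.I) • b)) (M : EReal)).toReal : ℝ) : EReal)

/-- The class `PSH⁻(D)`. -/
def IsNegPSH (D : Set (EuclideanSpace ℂ (Fin n))) (u : EuclideanSpace ℂ (Fin n) → EReal) : Prop :=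
  IsPSH D u ∧ ∀ x ∈ D, u x ≤ 0

/-- `D` is B-regular. -/
def IsBRegular (D : Set (EuclideanSpace ℂ (Fin n))) : Prop :=
  ∀ f : EuclideanSpace ℂ (Fin n) → ℝ, ContinuousOn f (frontier D) →
    ∃ F : EuclideanSpace ℂ (Fin n) → ℝ, ContinuousOn F (closure D) ∧
      Set.EqOn F f (frontier D) ∧ IsPSH D (fun x => (F x : EReal))

/-- The residual function `g_φ`. -/
noncomputable def residual (D : Set (EuclideanSpace ℂ (Fin n)))
    (φ : EuclideanSpace ℂ (Fin n) → EReal) (z : EuclideanSpace ℂ (Fin n)) : EReal :=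
  limsup (fun x => sSup {t : EReal | ∃ v, IsNegPSH D v ∧
    (∃ C : ℝ, ∀ y ∈ D, v y ≤ φ y + (C : EReal)) ∧ t = v x}) (𝓝[D] z)

/-- The rooftop envelope `P(u, v)`. -/
noncomputable def rooftop (D : Set (EuclideanSpace ℂ (Fin n)))
    (u v : EuclideanSpace ℂ (Fin n) → EReal) (z : EuclideanSpace ℂ (Fin n)) : EReal :=
  limsup (fun x => sSup {t : EReal | ∃ w, IsPSH D w ∧
    (∀ y ∈ D, w y ≤ min (u y) (v y)) ∧ t = w x}) (𝓝[D] z)

end Pool.Agent.Lib.MP_eb294e_an
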