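import Mathlib
import Pool.Agent.Lib.MP_eb294e_an.Defs

namespace Pool.Agent.Lib.MP_eb294e_an

open Filter Topology Metric Set

variable {n : ℕ}

theorem norm_exp_mul_I (θ : ℝ) : ‖Complex.exp ((θ : ℂ) * Complex.I)‖ = 1 :=
  Complex.norm_exp_ofReal_mul_I θ

theorem continuous_expI : Continuous (fun θ : ℝ => Complex.exp ((θ : ℂ) * Complex.I)) := by
  fun_prop

/-- Mean value property for the real part of a holomorphic function on the closed unit disc. -/
theorem mean_re (P : ℂ → ℂ) (hP : DifferentiableOn ℂ P (closedBall 0 1)) :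
    (2 * Real.pi)⁻¹ * ∫ θ in (0 : ℝ)..(2 * Real.pi),
      (P (Complex.exp ((θ : ℂ) * Complex.I))).re = (P 0).re := by
  have h1 : DiffContOnCl ℂ P (ball 0 |(1 : ℝ)|) := by
    apply DifferentiableOn.diffContOnCl
    rw [abs_one, closure_ball _ one_ne_zero]
    exact hP
  have h2 := h1.circleAverage
  have hint : CircleIntegrable P 0 1 := by
    apply ContinuousOn.circleIntegrable zero_le_one
    exact hP.continuousOn.mono sphere_subset_closedBall
  have h3 := Complex.reCLM.circleAverage_comp_comm hint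
  rw [h2] at h3
  rw [Real.circleAverage_def] at h3
  simp only [smul_eq_mul, Function.comp_apply, Complex.reCLM_apply, circleMap, zero_add,
    Complex.ofReal_one, one_mul] at h3
  exact h3

theorem contOn_circle (P : ℂ → ℂ) (hP : DifferentiableOn ℂ P (closedBall 0 1)) :
    Continuous (fun θ : ℝ => (P (Complex.exp ((θ : ℂ) * Complex.I))).re) := by
  apply Complex.continuous_re.comp
  apply hP.continuousOn.comp_continuous continuous_expI
  intro θ
  simp

/-- Key lemma: a negative psh function bounded above on a circle by the real part of a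
holomorphic function is bounded at the centre by the value at the centre. -/
theorem IsNegPSH.le_re {D : Set (EuclideanSpace ℂ (Fin n))}
    {v : EuclideanSpace ℂ (Fin n) → EReal} (hv : IsNegPSH D v)
    (a b : EuclideanSpace ℂ (Fin n)) (hab : ∀ ζ : ℂ, ‖ζ‖ ≤ 1 → a + ζ • b ∈ D)
    (P : ℂ → ℂ) (hP : DifferentiableOn ℂ P (closedBall 0 1))
    (hle : ∀ ζ : ℂ, ‖ζ‖ = 1 → v (a + ζ • b) ≤ (((P ζ).re : ℝ) : EReal)) :
    v a ≤ (((P 0).re : ℝ) : EReal) := by
  obtain ⟨⟨husc, -, -, hsub⟩, hneg⟩ := hv
  have hc := contOn_circle P hP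
  obtain ⟨θ₀, -, hθ₀⟩ := (isCompact_Icc (a := (0 : ℝ)) (b := 2 * Real.pi)).exists_isMinOn
    ⟨0, by simp [Real.pi_pos.le]⟩ hc.continuousOn
  set M : ℝ := (P (Complex.exp ((θ₀ : ℂ) * Complex.I))).re with hM
  refine (hsub a b hab M).trans ?_
  rw [EReal.coe_le_coe_iff, ← mean_re P hP]
  have hpi : 0 ≤ 2 * Real.pi := by positivity
  apply mul_le_mul_of_nonneg_left _ (by positivity)
  have hmem : ∀ θ : ℝ, a + Complex.exp ((θ : ℂ) * Complex.I) • b ∈ D := fun θ =>
    hab _ (norm_exp_mul_I θ).le
  have hγ : Continuous (fun θ : ℝ => a + Complex.exp ((θ : ℂ) * Complex.I) • b) := by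
    fun_prop
  have hu : UpperSemicontinuous (fun θ : ℝ => v (a + Complex.exp ((θ : ℂ) * Complex.I) • b)) := by
    rw [← upperSemicontinuousOn_univ_iff]
    exact husc.comp hγ.continuousOn (fun θ _ => hmem θ)
  have hmeas : Measurable (fun θ : ℝ =>
      (max (v (a + Complex.exp ((θ : ℂ) * Complex.I) • b)) (M : EReal)).toReal) :=
    (hu.measurable.max measurable_const).ereal_toReal
  have hbd : ∀ θ : ℝ, M ≤ (max (v (a + Complex.exp ((θ : ℂ) * Complex.I) • b)) (M : EReal)).toReal
      ∧ (max (v (a + Complex.exp ((θ : ℂ) * Complex.I) • b)) (M : EReal)).toReal ≤ max 0 M := by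
    intro θ
    have h0 := hneg _ (hmem θ)
    generalize v (a + Complex.exp ((θ : ℂ) * Complex.I) • b) = t at h0
    induction t with
    | bot => simp
    | top => simp at h0
    | coe t =>
      have h0' : t ≤ 0 := by exact_mod_cast h0
      rw [← EReal.coe_strictMono.monotone.map_max, EReal.toReal_coe]
      exact ⟨le_max_right _ _, max_le_max h0' le_rfl⟩
  have hint : IntervalIntegrable (fun θ : ℝ =>
      (max (v (a + Complex.exp ((θ : ℂ) * Complex.I) • b)) (M : EReal)).toReal)
      MeasureTheory.volume 0 (2 * Real.pi) := by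
    apply (intervalIntegrable_const (c := |M|)).mono_fun' hmeas.aestronglyMeasurable
    refine Eventually.of_forall fun θ => ?_
    have := hbd θ
    simp only [Real.norm_eq_abs]
    rw [abs_le]
    refine ⟨(neg_abs_le M).trans this.1, this.2.trans (max_le (abs_nonneg _) (le_abs_self _))⟩
  apply intervalIntegral.integral_mono_on hpi hint (hc.intervalIntegrable _ _)
  intro θ hθ
  have h1 := hle _ (norm_exp_mul_I θ)
  have h2 : M ≤ (P (Complex.exp ((θ : ℂ) * Complex.I))).re := hθ₀ hθ
  generalize v (a + Complex.exp ((θ : ℂ) * Complex.I) • b) = t at h1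
  induction t with
  | bot => simpa using h2
  | top => simp at h1
  | coe t =>
    have h1' : t ≤ (P (Complex.exp ((θ : ℂ) * Complex.I))).re := by exact_mod_cast h1
    rw [← EReal.coe_strictMono.monotone.map_max, EReal.toReal_coe]
    exact max_le h1' h2

/-- A continuous real function which is a supremum of real parts of holomorphic functions
is psh. -/
theorem isPSH_of_support {D : Set (EuclideanSpace ℂ (Fin n))} (hne : D.Nonempty)
    {F : EuclideanSpace ℂ (Fin n) → ℝ} (hF : ContinuousOn F D)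
    (hs : ∀ a ∈ D, ∀ c : ℝ, c < F a → ∃ G : EuclideanSpace ℂ (Fin n) → ℂ,
      DifferentiableOn ℂ G D ∧ (∀ x ∈ D, (G x).re ≤ F x) ∧ c < (G a).re) :
    IsPSH D (fun x => (F x : EReal)) := by
  refine ⟨?_, fun x _ => EReal.coe_ne_top _, ?_, ?_⟩
  · exact (continuous_coe_real_ereal.comp_continuousOn hF).upperSemicontinuousOn
  · obtain ⟨x, hx⟩ := hne
    exact ⟨x, hx, EReal.coe_ne_bot _⟩
  intro a b hab M
  have ha : a ∈ D := by simpa using hab 0 (by simp)
  rw [EReal.coe_le_coe_iff]
  apply le_of_forall_lt_imp_le_of_dense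
  intro c hc
  obtain ⟨G, hG, hGF, hcG⟩ := hs a ha c hc
  have hP : DifferentiableOn ℂ (fun ζ : ℂ => G (a + ζ • b)) (closedBall 0 1) := by
    apply hG.comp (f := fun ζ : ℂ => a + ζ • b) (by fun_prop)
    intro ζ hζ
    exact hab ζ (by simpa using hζ)
  have hm := mean_re _ hP
  simp only [zero_smul, add_zero] at hm
  refine hcG.le.trans ?_
  rw [← hm]
  have hpi : 0 ≤ 2 * Real.pi := by positivity
  apply mul_le_mul_of_nonneg_left _ (by positivity)
  have hmem : ∀ θ : ℝ, a + Complex.exp ((θ : ℂ) * Complex.I) • b ∈ D := fun θ =>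
    hab _ (norm_exp_mul_I θ).le
  have hγ : Continuous (fun θ : ℝ => a + Complex.exp ((θ : ℂ) * Complex.I) • b) := by
    fun_prop
  have hc2 : Continuous (fun θ : ℝ => max (F (a + Complex.exp ((θ : ℂ) * Complex.I) • b)) M) :=
    (hF.comp_continuous hγ hmem).max continuous_const
  have heq : (fun θ : ℝ =>
      (max ((F (a + Complex.exp ((θ : ℂ) * Complex.I) • b) : ℝ) : EReal) (M : EReal)).toReal)
      = fun θ : ℝ => max (F (a + Complex.exp ((θ : ℂ) * Complex.I) • b)) M := by
    funext θ
    rw [← EReal.coe_strictMono.monotone.map_max, EReal.toReal_coe]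
  rw [heq]
  apply intervalIntegral.integral_mono_on hpi ((contOn_circle _ hP).intervalIntegrable _ _)
    (hc2.intervalIntegrable _ _)
  intro θ _
  exact (hGF _ (hmem θ)).trans (le_max_left _ _)

/-- Upper bound for an upper semicontinuous regularisation by a continuous majorant. -/
theorem limsup_le_of_le {D : Set (EuclideanSpace ℂ (Fin n))}
    {f : EuclideanSpace ℂ (Fin n) → EReal} {F : EuclideanSpace ℂ (Fin n) → ℝ}
    (hF : ContinuousOn F D) (hf : ∀ x ∈ D, f x ≤ (F x : EReal)) {z : EuclideanSpace ℂ (Fin n)}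
    (hz : z ∈ D) : limsup f (𝓝[D] z) ≤ (F z : EReal) := by
  have : (𝓝[D] z).NeBot := mem_closure_iff_nhdsWithin_neBot.mp (subset_closure hz)
  have ht : Tendsto (fun x => (F x : EReal)) (𝓝[D] z) (𝓝 (F z : EReal)) :=
    (continuous_coe_real_ereal.tendsto _).comp (hF z hz)
  rw [← ht.limsup_eq]
  refine limsup_le_limsup ?_
  filter_upwards [self_mem_nhdsWithin] with x hx using hf x hx

theorem le_limsup_self {D : Set (EuclideanSpace ℂ (Fin n))}
    (f : EuclideanSpace ℂ (Fin n) → EReal) {z : EuclideanSpace ℂ (Fin n)}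
    (hz : z ∈ D) : f z ≤ limsup f (𝓝[D] z) := by
  refine le_limsup_of_frequently_le ?_
  have h : ∃ᶠ x in pure z, f z ≤ f x := by simp
  exact h.filter_mono (pure_le_nhdsWithin hz)

end Pool.Agent.Lib.MP_eb294e_an
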