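import Mathlib
import Pool.Agent.Lib.MP_eb294e_an.Basic

namespace Pool.Agent.Lib.MP_eb294e_an

open Filter Topology Metric Set

variable {n : ℕ}

/-- A real affine function that is nonpositive on the unit sphere is nonpositive on the closed
unit ball. -/
theorem affine_le_of_sphere (hn : 0 < n) (c : ℝ) (ξ : EuclideanSpace ℂ (Fin n))
    (h : ∀ y ∈ sphere (0 : EuclideanSpace ℂ (Fin n)) 1, c + (inner ℂ ξ y).re ≤ 0)
    (x : EuclideanSpace ℂ (Fin n)) (hx : x ∈ closedBall (0 : EuclideanSpace ℂ (Fin n)) 1) :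
    c + (inner ℂ ξ x).re ≤ 0 := by
  have hx1 : ‖x‖ ≤ 1 := by simpa using hx
  have h1 : (inner ℂ ξ x).re ≤ ‖ξ‖ := by
    calc (inner ℂ ξ x).re ≤ ‖inner ℂ ξ x‖ := Complex.re_le_norm _
      _ ≤ ‖ξ‖ * ‖x‖ := norm_inner_le_norm _ _
      _ ≤ ‖ξ‖ * 1 := by gcongr
      _ = ‖ξ‖ := mul_one _
  suffices c + ‖ξ‖ ≤ 0 by linarith
  by_cases hξ : ξ = 0
  · have := h (EuclideanSpace.single (⟨0, hn⟩ : Fin n) (1 : ℂ)) (by simp)
    subst hξ
    simpa using this
  · have hpos : 0 < ‖ξ‖ := norm_pos_iff.mpr hξ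
    have := h (((‖ξ‖⁻¹ : ℝ) : ℂ) • ξ) (by
      rw [mem_sphere_zero_iff_norm, norm_smul, Complex.norm_real, norm_inv, norm_norm,
        inv_mul_cancel₀ hpos.ne'])
    rw [inner_smul_right, inner_self_eq_norm_sq_to_K] at this
    have e : ((((‖ξ‖⁻¹ : ℝ) : ℂ)) * ((‖ξ‖ : ℂ)) ^ 2).re = ‖ξ‖ := by
      rw [← Complex.ofReal_pow, ← Complex.ofReal_mul, Complex.ofReal_re]
      field_simp
    exact e ▸ this

theorem isBRegular_ball (hn : 0 < n) :
    IsBRegular (ball (0 : EuclideanSpace ℂ (Fin n)) 1) := by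
  intro f hf
  rw [frontier_ball _ one_ne_zero] at hf ⊢
  rw [closure_ball _ one_ne_zero]
  obtain ⟨B, hB⟩ := (isCompact_sphere (0 : EuclideanSpace ℂ (Fin n)) 1).exists_bound_of_continuousOn hf
  simp only [Real.norm_eq_abs, abs_le] at hB
  -- the envelope of affine minorants
  set S : EuclideanSpace ℂ (Fin n) → Set ℝ := fun x =>
    {r | ∃ (c : ℝ) (ξ : EuclideanSpace ℂ (Fin n)),
      (∀ y ∈ sphere (0 : EuclideanSpace ℂ (Fin n)) 1, c + (inner ℂ ξ y).re ≤ f y) ∧
        r = c + (inner ℂ ξ x).re} with hS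
  have hSne : ∀ x, (S x).Nonempty := fun x =>
    ⟨-B, -B, 0, fun y hy => by simpa using (hB y hy).1, by simp⟩
  have hub : ∀ (c' : ℝ) (ξ' : EuclideanSpace ℂ (Fin n)),
      (∀ y ∈ sphere (0 : EuclideanSpace ℂ (Fin n)) 1, f y ≤ c' + (inner ℂ ξ' y).re) →
      ∀ x ∈ closedBall (0 : EuclideanSpace ℂ (Fin n)) 1, ∀ r ∈ S x,
        r ≤ c' + (inner ℂ ξ' x).re := by
    rintro c' ξ' h' x hx r ⟨c, ξ, h, rfl⟩
    have := affine_le_of_sphere hn (c - c') (ξ - ξ') (fun y hy => by
      have h1 := h y hy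
      have h2 := h' y hy
      rw [inner_sub_left, Complex.sub_re]
      linarith) x hx
    rw [inner_sub_left, Complex.sub_re] at this
    linarith
  have hbdd : ∀ x ∈ closedBall (0 : EuclideanSpace ℂ (Fin n)) 1, BddAbove (S x) := fun x hx =>
    ⟨B + (inner ℂ (0 : EuclideanSpace ℂ (Fin n)) x).re,
      fun r hr => hub B 0 (fun y hy => by simpa using (hB y hy).2) x hx r hr⟩
  set U : EuclideanSpace ℂ (Fin n) → ℝ := fun x => sSup (S x) with hU
  have hlow : ∀ (c : ℝ) (ξ : EuclideanSpace ℂ (Fin n)),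
      (∀ y ∈ sphere (0 : EuclideanSpace ℂ (Fin n)) 1, c + (inner ℂ ξ y).re ≤ f y) →
      ∀ x ∈ closedBall (0 : EuclideanSpace ℂ (Fin n)) 1, c + (inner ℂ ξ x).re ≤ U x :=
    fun c ξ h x hx => le_csSup (hbdd x hx) ⟨c, ξ, h, rfl⟩
  have hup : ∀ (c' : ℝ) (ξ' : EuclideanSpace ℂ (Fin n)),
      (∀ y ∈ sphere (0 : EuclideanSpace ℂ (Fin n)) 1, f y ≤ c' + (inner ℂ ξ' y).re) →
      ∀ x ∈ closedBall (0 : EuclideanSpace ℂ (Fin n)) 1, U x ≤ c' + (inner ℂ ξ' x).re :=
    fun c' ξ' h x hx => csSup_le (hSne x) (hub c' ξ' h x hx)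
  -- barriers at a boundary point
  have hbar : ∀ p ∈ sphere (0 : EuclideanSpace ℂ (Fin n)) 1, ∀ ε > 0, ∃ A : ℝ,
      ∀ x ∈ closedBall (0 : EuclideanSpace ℂ (Fin n)) 1,
        |U x - f p| ≤ ε + A * (1 - (inner ℂ p x).re) := by
    intro p hp ε hε
    obtain ⟨δ, hδ, hδf⟩ := Metric.continuousWithinAt_iff.mp (hf p hp) ε hε
    have hp1 : ‖p‖ = 1 := by simpa using hp
    have hB0 : 0 ≤ B := by have := hB p hp; linarith [this.1, this.2]
    set A : ℝ := 4 * B / δ ^ 2 with hA
    have hA0 : 0 ≤ A := by positivity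
    have key : ∀ y ∈ sphere (0 : EuclideanSpace ℂ (Fin n)) 1,
        |f y - f p| ≤ ε + A * (1 - (inner ℂ p y).re) := by
      intro y hy
      have hy1 : ‖y‖ = 1 := by simpa using hy
      have hn2 : ‖p - y‖ ^ 2 = 2 * (1 - (inner ℂ p y).re) := by
        rw [@norm_sub_sq ℂ, hp1, hy1]
        simp only [RCLike.re_to_complex]
        ring
      have hnn : 0 ≤ 1 - (inner ℂ p y).re := by nlinarith [sq_nonneg ‖p - y‖]
      by_cases hd : dist y p < δ
      · have := hδf hy hd
        rw [Real.dist_eq] at this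
        nlinarith [mul_nonneg hA0 hnn]
      · push Not at hd
        rw [dist_comm, dist_eq_norm] at hd
        have h3 : δ ^ 2 ≤ 2 * (1 - (inner ℂ p y).re) := by
          rw [← hn2]; gcongr
        have h4 : 2 * B ≤ A * (1 - (inner ℂ p y).re) := by
          have : A * δ ^ 2 = 4 * B := by rw [hA]; field_simp
          nlinarith
        have h5 := hB y hy
        have h6 := hB p hp
        rw [abs_le]
        constructor <;> linarith [h5.1, h5.2, h6.1, h6.2]
    refine ⟨A, fun x hx => ?_⟩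
    have e1 : ∀ y : EuclideanSpace ℂ (Fin n),
        (inner ℂ ((A : ℂ) • p) y).re = A * (inner ℂ p y).re := by
      intro y
      rw [inner_smul_left, Complex.conj_ofReal, Complex.re_ofReal_mul]
    have l1 := hlow (f p - ε - A) ((A : ℂ) • p) (fun y hy => by
      rw [e1]; have := abs_le.mp (key y hy); linarith [this.1]) x hx
    have l2 := hup (f p + ε + A) (-((A : ℂ) • p)) (fun y hy => by
      rw [inner_neg_left, Complex.neg_re, e1]; have := abs_le.mp (key y hy); linarith [this.2]) x hx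
    rw [e1] at l1
    rw [inner_neg_left, Complex.neg_re, e1] at l2
    rw [abs_le]
    constructor <;> linarith
  have hbdry : ∀ p ∈ sphere (0 : EuclideanSpace ℂ (Fin n)) 1, U p = f p := by
    intro p hp
    have hp1 : ‖p‖ = 1 := by simpa using hp
    have hpp : (inner ℂ p p).re = 1 := by
      rw [inner_self_eq_norm_sq_to_K, hp1]; simp
    have : |U p - f p| ≤ 0 := by
      apply le_of_forall_pos_le_add
      intro ε hε
      obtain ⟨A, hA⟩ := hbar p hp ε hε
      have := hA p (sphere_subset_closedBall hp)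
      rw [hpp] at this
      linarith
    have := abs_nonpos_iff.mp this
    linarith
  have hconv : ConvexOn ℝ (ball (0 : EuclideanSpace ℂ (Fin n)) 1) U := by
    refine ⟨convex_ball _ _, ?_⟩
    intro x hx y hy a b ha hb hab
    apply csSup_le (hSne _)
    rintro r ⟨c, ξ, h, rfl⟩
    have h1 := hlow c ξ h x (ball_subset_closedBall hx)
    have h2 := hlow c ξ h y (ball_subset_closedBall hy)
    have e : (inner ℂ ξ (a • x + b • y)).re = a * (inner ℂ ξ x).re + b * (inner ℂ ξ y).re := by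
      rw [inner_add_right, Complex.add_re, ← Complex.coe_smul, ← Complex.coe_smul,
        inner_smul_right, inner_smul_right, Complex.re_ofReal_mul, Complex.re_ofReal_mul]
    rw [e, smul_eq_mul, smul_eq_mul]
    have hc : c = a * c + b * c := by rw [← add_mul, hab, one_mul]
    nlinarith [mul_le_mul_of_nonneg_left h1 ha, mul_le_mul_of_nonneg_left h2 hb]
  have hcont : ContinuousOn U (ball (0 : EuclideanSpace ℂ (Fin n)) 1) :=
    hconv.continuousOn isOpen_ball
  refine ⟨U, ?_, fun p hp => hbdry p hp, ?_⟩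
  · intro p hp
    by_cases hp' : p ∈ ball (0 : EuclideanSpace ℂ (Fin n)) 1
    · exact (hcont.continuousAt (isOpen_ball.mem_nhds hp')).continuousWithinAt
    have hps : p ∈ sphere (0 : EuclideanSpace ℂ (Fin n)) 1 := by
      simp only [mem_closedBall, mem_ball, mem_sphere, not_lt] at hp hp' ⊢
      linarith
    have hp1 : ‖p‖ = 1 := by simpa using hps
    have hpp : (inner ℂ p p).re = 1 := by
      rw [inner_self_eq_norm_sq_to_K, hp1]; simp
    rw [ContinuousWithinAt, Metric.tendsto_nhds]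
    intro ε hε
    obtain ⟨A, hA⟩ := hbar p hps (ε / 2) (by positivity)
    have hc : Continuous (fun x : EuclideanSpace ℂ (Fin n) => A * (1 - (inner ℂ p x).re)) := by
      fun_prop
    have ht := hc.tendsto p
    simp only [hpp, sub_self, mul_zero] at ht
    have hev : ∀ᶠ x in 𝓝 p, A * (1 - (inner ℂ p x).re) < ε / 2 :=
      ht.eventually (gt_mem_nhds (by positivity))
    filter_upwards [self_mem_nhdsWithin, nhdsWithin_le_nhds hev] with x hx hx2
    rw [Real.dist_eq, hbdry p hps]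
    linarith [hA x hx]
  · apply isPSH_of_support ⟨0, by simp⟩ hcont
    intro a ha c hc
    obtain ⟨r, ⟨c₀, ξ, h, rfl⟩, hr⟩ := exists_lt_of_lt_csSup (hSne a) hc
    refine ⟨fun x => (c₀ : ℂ) + inner ℂ ξ x, ?_, ?_, ?_⟩
    · apply Differentiable.differentiableOn
      exact (differentiable_const _).add (innerSL ℂ ξ).differentiable
    · intro x hx
      simpa using hlow c₀ ξ h x (ball_subset_closedBall hx)
    · simpa using hr

end Pool.Agent.Lib.MP_eb294e_an
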