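import Mathlib

namespace Pool.Agent.Lib.MP_eb294e_an

open Filter Topology Metric Set

/-- The disc tangent to the imaginary axis at the origin. -/
def disc (κ : ℝ) : Set ℂ := {η : ℂ | κ * ‖η‖ ^ 2 < 2 * η.re}

/-- The Poisson kernel type function on the disc. -/
noncomputable def pk (κ : ℝ) (η : ℂ) : ℝ := 2 * (η⁻¹).re - κ

theorem isOpen_disc (κ : ℝ) : IsOpen (disc κ) :=
  isOpen_lt (by fun_prop) (by fun_prop)

theorem disc_re_pos {κ : ℝ} (hκ : 1 ≤ κ) {η : ℂ} (h : η ∈ disc κ) : 0 < η.re := by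
  have h' : κ * ‖η‖ ^ 2 < 2 * η.re := h
  have : 0 ≤ κ * ‖η‖ ^ 2 := by positivity
  linarith

theorem disc_ne_zero {κ : ℝ} (hκ : 1 ≤ κ) {η : ℂ} (h : η ∈ disc κ) : η ≠ 0 := by
  rintro rfl
  simpa using disc_re_pos hκ h

theorem disc_norm_le {κ : ℝ} (hκ : 1 ≤ κ) {η : ℂ} (h : η ∈ disc κ) : ‖η‖ ≤ 2 := by
  have h' : κ * ‖η‖ ^ 2 < 2 * η.re := h
  have h1 : η.re ≤ ‖η‖ := Complex.re_le_norm η
  have h2 : 0 ≤ ‖η‖ := norm_nonneg _
  by_contra hc
  push Not at hc
  nlinarith [sq_nonneg ‖η‖]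

theorem pk_eq (κ : ℝ) {η : ℂ} (h : η ≠ 0) : pk κ η = (2 * η.re - κ * ‖η‖ ^ 2) / ‖η‖ ^ 2 := by
  have : 0 < ‖η‖ := norm_pos_iff.mpr h
  rw [pk, Complex.inv_re, Complex.normSq_eq_norm_sq]
  field_simp

theorem mem_disc_of_pk_pos {κ : ℝ} {η : ℂ} (h : η ≠ 0) (hp : 0 < pk κ η) : η ∈ disc κ := by
  have h0 : 0 < ‖η‖ ^ 2 := by positivity
  rw [pk_eq κ h, div_pos_iff_of_pos_right h0] at hp
  show κ * ‖η‖ ^ 2 < 2 * η.re
  linarith

theorem continuousAt_pk (κ : ℝ) {η : ℂ} (h : η ≠ 0) : ContinuousAt (pk κ) η := by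
  have h1 : ContinuousAt (fun η : ℂ => (η⁻¹).re) η :=
    Complex.continuous_re.continuousAt.comp (continuousAt_inv₀ h)
  exact (continuousAt_const.mul h1).sub continuousAt_const

/-- Extended maximum principle on the disc, with one exceptional boundary point. -/
theorem maxp (κ lam A : ℝ) (hκ : 1 ≤ κ) (hlam : 0 ≤ lam) (V : ℂ → EReal)
    (husc : UpperSemicontinuousOn V (disc κ)) (hneg : ∀ η ∈ disc κ, V η ≤ 0)
    (hsub : ∀ (η₀ : ℂ) (r : ℝ), (∀ ζ : ℂ, ‖ζ‖ ≤ 1 → η₀ + ζ * r ∈ disc κ) →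
      ∀ P : ℂ → ℂ, DifferentiableOn ℂ P (closedBall 0 1) →
        (∀ ζ : ℂ, ‖ζ‖ = 1 → V (η₀ + ζ * r) ≤ (((P ζ).re : ℝ) : EReal)) →
        V η₀ ≤ (((P 0).re : ℝ) : EReal))
    (hA : ∀ η ∈ disc κ, V η ≤ ((A - lam * pk κ η : ℝ) : EReal)) :
    ∀ η ∈ disc κ, V η ≤ ((-(lam * pk κ η) : ℝ) : EReal) := by
  intro η₁ hη₁
  by_contra hcon
  push Not at hcon
  -- `V η₁` is a real number
  obtain ⟨V₁, hV₁⟩ : ∃ V₁ : ℝ, V η₁ = V₁ := by
    have h0 := hneg η₁ hη₁
    generalize V η₁ = t at h0 hcon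
    induction t with
    | bot => simp at hcon
    | top => simp at h0
    | coe t => exact ⟨t, rfl⟩
  rw [hV₁, EReal.coe_lt_coe_iff] at hcon
  set γ : ℝ := (V₁ + lam * pk κ η₁) / 3 with hγ
  have hγ0 : 0 < γ := by rw [hγ]; linarith
  set L₁ : ℝ := Real.log (‖η₁‖ / 2) with hL₁
  set ε : ℝ := γ / (|L₁| + 1) with hε
  have hε0 : 0 < ε := by positivity
  have hεL : -γ ≤ ε * L₁ := by
    have h1 : ε * (|L₁| + 1) = γ := by rw [hε]; field_simp
    nlinarith [neg_abs_le L₁]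
  set δ : ℝ := γ / 4 with hδ
  have hδ0 : 0 < δ := by positivity
  set h : ℂ → ℝ := fun η => lam * pk κ η + ε * Real.log (‖η‖ / 2) + δ * ‖η‖ ^ 2 with hh
  set ρ : ℝ := 2 * Real.exp ((γ - A) / ε) with hρ
  have hρ0 : 0 < ρ := by positivity
  set K : Set ℂ := {η | ρ ≤ ‖η‖ ∧ ‖η‖ ≤ 2 ∧ γ ≤ lam * pk κ η} with hK
  have hKd : K ⊆ disc κ := by
    rintro η ⟨h1, -, h3⟩
    have hne : η ≠ 0 := by
      rintro rfl
      simp at h1
      linarith
    apply mem_disc_of_pk_pos hne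
    by_contra hc
    push Not at hc
    nlinarith [mul_nonneg hlam (neg_nonneg.mpr hc)]
  have hcont : ContinuousOn h {η : ℂ | η ≠ 0} := by
    intro η hη
    have hη' : η ≠ 0 := hη
    have hη2 : ‖η‖ / 2 ≠ 0 := by
      have : 0 < ‖η‖ := norm_pos_iff.mpr hη'
      positivity
    apply ContinuousAt.continuousWithinAt
    have hpk := continuousAt_pk κ hη'
    simp only [hh]
    fun_prop (disch := assumption)
  have hKc : IsCompact K := by
    have e : K = (closedBall (0 : ℂ) 2 ∩ {η | ρ ≤ ‖η‖}) ∩ (fun η => lam * pk κ η) ⁻¹' Ici γ := by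
      ext η
      simp only [hK, mem_ofPred_eq, mem_inter_iff, mem_closedBall, dist_zero_right, mem_preimage,
        mem_Ici]
      tauto
    have hc1 : IsCompact (closedBall (0 : ℂ) 2 ∩ {η | ρ ≤ ‖η‖}) :=
      (isCompact_closedBall _ _).inter_right (isClosed_le continuous_const continuous_norm)
    have hc2 : ContinuousOn (fun η => lam * pk κ η) (closedBall (0 : ℂ) 2 ∩ {η | ρ ≤ ‖η‖}) := by
      intro η hη
      have hη' : η ≠ 0 := by
        rintro rfl
        have := hη.2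
        simp at this
        linarith
      exact (continuousAt_const.mul (continuousAt_pk κ hη')).continuousWithinAt
    rw [e]
    exact hc1.of_isClosed_subset (hc2.preimage_isClosed_of_isClosed hc1.isClosed isClosed_Ici)
      inter_subset_left
  -- points where the perturbed function is large lie in `K`
  have hbig : ∀ η ∈ disc κ, ((2 * γ : ℝ) : EReal) ≤ V η + (h η : EReal) → η ∈ K := by
    intro η hη hle
    have hn2 := disc_norm_le hκ hη
    have hn0 : 0 < ‖η‖ := norm_pos_iff.mpr (disc_ne_zero hκ hη)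
    have hlog : Real.log (‖η‖ / 2) ≤ 0 := Real.log_nonpos (by positivity) (by linarith)
    have hsq : δ * ‖η‖ ^ 2 ≤ γ := by
      have : ‖η‖ ^ 2 ≤ 4 := by nlinarith
      rw [hδ]; nlinarith
    have a1 : ((2 * γ : ℝ) : EReal) ≤ ((0 + h η : ℝ) : EReal) := by
      rw [EReal.coe_add]
      exact hle.trans (add_le_add_left (by simpa using hneg η hη) _)
    have a2 : ((2 * γ : ℝ) : EReal) ≤ ((A - lam * pk κ η + h η : ℝ) : EReal) := by
      rw [EReal.coe_add]
      exact hle.trans (add_le_add_left (hA η hη) _)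
    rw [EReal.coe_le_coe_iff] at a1 a2
    simp only [hh] at a1 a2
    refine ⟨?_, hn2, ?_⟩
    · have b1 : (γ - A) / ε ≤ Real.log (‖η‖ / 2) := by
        rw [div_le_iff₀ hε0]; linarith
      have b2 := Real.exp_le_exp.mpr b1
      rw [Real.exp_log (by positivity)] at b2
      rw [hρ]; linarith
    · nlinarith [mul_nonneg hε0.le (neg_nonneg.mpr hlog)]
  have hU₁ : ((2 * γ : ℝ) : EReal) ≤ V η₁ + (h η₁ : EReal) := by
    rw [hV₁, ← EReal.coe_add, EReal.coe_le_coe_iff]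
    simp only [hh]
    have : 0 ≤ δ * ‖η₁‖ ^ 2 := by positivity
    linarith
  have hK₁ : η₁ ∈ K := hbig η₁ hη₁ hU₁
  have hUusc : UpperSemicontinuousOn (fun η => V η + (h η : EReal)) K := by
    apply UpperSemicontinuousOn.add' (husc.mono hKd)
    · exact (continuous_coe_real_ereal.comp_continuousOn
        (hcont.mono fun η hη => disc_ne_zero hκ (hKd hη))).upperSemicontinuousOn
    · intro η _
      exact EReal.continuousAt_add (Or.inr (EReal.coe_ne_bot _)) (Or.inr (EReal.coe_ne_top _))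
  obtain ⟨η₀, hη₀K, hmax⟩ := hUusc.exists_isMaxOn ⟨η₁, hK₁⟩ hKc
  have hη₀ : η₀ ∈ disc κ := hKd hη₀K
  have hU₀ : ((2 * γ : ℝ) : EReal) ≤ V η₀ + (h η₀ : EReal) := hU₁.trans (hmax hK₁)
  obtain ⟨V₀, hV₀⟩ : ∃ V₀ : ℝ, V η₀ = V₀ := by
    have h0 := hneg η₀ hη₀
    generalize V η₀ = t at h0 hU₀
    induction t with
    | bot =>
      rw [EReal.bot_add, le_bot_iff] at hU₀
      exact absurd hU₀ (EReal.coe_ne_bot _)
    | top => simp at h0
    | coe t => exact ⟨t, rfl⟩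
  have hall : ∀ η ∈ disc κ, V η ≤ ((V₀ + h η₀ - h η : ℝ) : EReal) := by
    intro η hη
    have h1 : V η + (h η : EReal) ≤ V η₀ + (h η₀ : EReal) := by
      by_cases hb : ((2 * γ : ℝ) : EReal) ≤ V η + (h η : EReal)
      · exact hmax (hbig η hη hb)
      · push Not at hb
        exact hb.le.trans hU₀
    rw [hV₀] at h1
    generalize V η = t at h1
    induction t with
    | bot => simp
    | top =>
      rw [EReal.top_add_coe, ← EReal.coe_add] at h1
      exact absurd h1 (by simp only [top_le_iff]; exact EReal.coe_ne_top _)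
    | coe t =>
      rw [← EReal.coe_add, ← EReal.coe_add, EReal.coe_le_coe_iff] at h1
      rw [EReal.coe_le_coe_iff]; linarith
  obtain ⟨r', hr'0, hr'⟩ := Metric.isOpen_iff.mp (isOpen_disc κ) η₀ hη₀
  set r : ℝ := r' / 2 with hr
  have hr0 : 0 < r := by positivity
  have hin : ∀ ζ : ℂ, ‖ζ‖ ≤ 1 → η₀ + ζ * r ∈ disc κ := by
    intro ζ hζ
    apply hr'
    rw [mem_ball, dist_eq_norm, add_sub_cancel_left, norm_mul, Complex.norm_real,
      Real.norm_of_nonneg hr0.le]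
    nlinarith [norm_nonneg ζ]
  set P : ℂ → ℂ := fun ζ => ((V₀ + h η₀ - δ * r ^ 2 : ℝ) : ℂ)
    - ((lam : ℂ) * (2 * (η₀ + ζ * r)⁻¹ - κ) + (ε : ℂ) * Complex.log ((η₀ + ζ * r) / 2)
      + (δ : ℂ) * (((‖η₀‖ ^ 2 : ℝ) : ℂ) + 2 * (starRingEnd ℂ η₀) * (ζ * r))) with hP
  have hPre : ∀ ζ : ℂ, (P ζ).re = V₀ + h η₀ - δ * r ^ 2 - (lam * pk κ (η₀ + ζ * r)
      + ε * Real.log (‖η₀ + ζ * r‖ / 2)
      + δ * (‖η₀‖ ^ 2 + 2 * ((starRingEnd ℂ η₀) * (ζ * r)).re)) := by
    intro ζ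
    simp only [hP, pk, Complex.sub_re, Complex.add_re, Complex.ofReal_re, Complex.re_ofReal_mul,
      Complex.log_re, norm_div, Complex.norm_ofNat, mul_assoc]
    have e2 : ∀ w : ℂ, (2 * w).re = 2 * w.re := fun w => by simp
    rw [e2, e2]
  have hPd : DifferentiableOn ℂ P (closedBall 0 1) := by
    intro ζ hζ
    have hζ' : ‖ζ‖ ≤ 1 := by simpa using hζ
    have hm := hin ζ hζ'
    have hne := disc_ne_zero hκ hm
    have hsl : (η₀ + ζ * r) / 2 ∈ Complex.slitPlane := by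
      left
      have := disc_re_pos hκ hm
      rw [Complex.div_ofNat_re]
      positivity
    apply DifferentiableAt.differentiableWithinAt
    have d1 : DifferentiableAt ℂ (fun ζ : ℂ => Complex.log ((η₀ + ζ * r) / 2)) ζ :=
      DifferentiableAt.clog (by fun_prop) hsl
    simp only [hP]
    fun_prop (disch := assumption)
  have hfin := hsub η₀ r hin P hPd (by
    intro ζ hζ
    refine (hall _ (hin ζ hζ.le)).trans ?_
    rw [EReal.coe_le_coe_iff, hPre]
    have e : ‖η₀ + ζ * r‖ ^ 2 = ‖η₀‖ ^ 2 + 2 * ((starRingEnd ℂ η₀) * (ζ * r)).re + r ^ 2 := by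
      have hz : ζ.re ^ 2 + ζ.im ^ 2 = 1 := by
        have := Complex.normSq_eq_norm_sq ζ
        rw [hζ, Complex.normSq_apply] at this
        nlinarith
      rw [← Complex.normSq_eq_norm_sq, ← Complex.normSq_eq_norm_sq, Complex.normSq_apply,
        Complex.normSq_apply]
      simp
      nlinarith
    simp only [hh]
    rw [e]
    apply le_of_eq
    ring)
  rw [hV₀, EReal.coe_le_coe_iff, hPre] at hfin
  simp only [hh, zero_mul, add_zero, mul_zero, Complex.zero_re] at hfin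
  have : 0 < δ * r ^ 2 := by positivity
  linarith

end Pool.Agent.Lib.MP_eb294e_an
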