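import Mathlib
import Pool.Agent.Lib.MP_eb294e_an.Basic
import Pool.Agent.Lib.MP_eb294e_an.MaxP

namespace Pool.Agent.Lib.MP_eb294e_an

open Filter Topology Metric Set

abbrev E2 := EuclideanSpace ℂ (Fin 2)

abbrev B2 : Set E2 := ball (0 : E2) 1

/-- First Cayley coordinate. -/
noncomputable def zc (Z : E2) : ℂ := Z 0 / (1 - Z 1)

/-- Second Cayley coordinate (up to the factor `i`). -/
noncomputable def wc (Z : E2) : ℂ := (1 + Z 1) / (1 - Z 1)

noncomputable def gr (Z : E2) : ℝ := -(wc Z).re + (zc Z).re ^ 2 + (zc Z).im ^ 2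

noncomputable def phir (Z : E2) : ℝ := -(wc Z).re + (zc Z).im ^ 2 - (zc Z).re ^ 2 / 2

noncomputable def psir (Z : E2) : ℝ := -(wc Z).re + (zc Z).re ^ 2 - (zc Z).im ^ 2 / 2

theorem mem_B2 (Z : E2) : Z ∈ B2 ↔ ‖Z 0‖ ^ 2 + ‖Z 1‖ ^ 2 < 1 := by
  rw [mem_ball_zero_iff, ← Fin.sum_univ_two (fun i => ‖Z i‖ ^ 2), ← EuclideanSpace.norm_sq_eq,
    sq_lt_one_iff₀ (norm_nonneg _)]

theorem one_sub_ne {Z : E2} (h : Z ∈ B2) : 1 - Z 1 ≠ 0 := by
  rw [mem_B2] at h
  intro h0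
  have : Z 1 = 1 := by linear_combination -h0
  rw [this] at h
  simp at h
  nlinarith [sq_nonneg ‖Z 0‖]

theorem normsq_eq (z : ℂ) : z.re ^ 2 + z.im ^ 2 = ‖z‖ ^ 2 := by
  rw [← Complex.normSq_eq_norm_sq, Complex.normSq_apply]; ring

theorem gr_eq {Z : E2} (h : 1 - Z 1 ≠ 0) :
    gr Z = (‖Z 0‖ ^ 2 + ‖Z 1‖ ^ 2 - 1) / ‖1 - Z 1‖ ^ 2 := by
  have h0 : 0 < ‖1 - Z 1‖ := norm_pos_iff.mpr h
  rw [gr, add_assoc, normsq_eq, zc, norm_div, div_pow, wc, Complex.div_re,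
    Complex.normSq_eq_norm_sq, ← normsq_eq (Z 1)]
  simp only [Complex.add_re, Complex.one_re, Complex.sub_re, Complex.add_im, Complex.one_im,
    Complex.sub_im]
  field_simp
  ring

theorem mem_B2_iff_gr {Z : E2} (h : 1 - Z 1 ≠ 0) : Z ∈ B2 ↔ gr Z < 0 := by
  have h0 : 0 < ‖1 - Z 1‖ ^ 2 := by positivity
  rw [gr_eq h, div_neg_iff, mem_B2]
  constructor
  · intro h1; right; exact ⟨by linarith, h0⟩
  · rintro (⟨-, h2⟩ | ⟨h1, -⟩)
    · linarith
    · linarith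

theorem gr_neg {Z : E2} (h : Z ∈ B2) : gr Z < 0 := (mem_B2_iff_gr (one_sub_ne h)).mp h

theorem diff_coord (i : Fin 2) : Differentiable ℂ (fun Z : E2 => Z i) :=
  (EuclideanSpace.proj (𝕜 := ℂ) i).differentiable

theorem diff_inv {Z : E2} (hZ : Z ∈ B2) : DifferentiableAt ℂ (fun W : E2 => (1 - W 1)⁻¹) Z :=
  DifferentiableAt.fun_inv (h := fun W : E2 => 1 - W 1)
    ((differentiableAt_const _).sub ((diff_coord 1) Z)) (one_sub_ne hZ)

theorem diff_zc : DifferentiableOn ℂ zc B2 := fun Z hZ => by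
  have := ((diff_coord 0) Z).mul (diff_inv hZ)
  exact this.differentiableWithinAt

theorem diff_wc : DifferentiableOn ℂ wc B2 := fun Z hZ => by
  have := ((differentiableAt_const (1 : ℂ)).add ((diff_coord 1) Z)).mul (diff_inv hZ)
  exact this.differentiableWithinAt

theorem cont_zre : ContinuousOn (fun Z => (zc Z).re) B2 :=
  Complex.continuous_re.comp_continuousOn diff_zc.continuousOn

theorem cont_zim : ContinuousOn (fun Z => (zc Z).im) B2 :=
  Complex.continuous_im.comp_continuousOn diff_zc.continuousOn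

theorem cont_wre : ContinuousOn (fun Z => (wc Z).re) B2 :=
  Complex.continuous_re.comp_continuousOn diff_wc.continuousOn

theorem cont_gr : ContinuousOn gr B2 :=
  (cont_wre.neg.add (cont_zre.pow 2)).add (cont_zim.pow 2)

theorem cont_phir : ContinuousOn phir B2 :=
  (cont_wre.neg.add (cont_zim.pow 2)).sub ((cont_zre.pow 2).div_const 2)

theorem cont_psir : ContinuousOn psir B2 :=
  (cont_wre.neg.add (cont_zre.pow 2)).sub ((cont_zim.pow 2).div_const 2)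

theorem phir_le (Z : E2) : phir Z ≤ gr Z := by
  unfold phir gr; nlinarith [sq_nonneg (zc Z).re]

theorem psir_le (Z : E2) : psir Z ≤ gr Z := by
  unfold psir gr; nlinarith [sq_nonneg (zc Z).im]

/-- The pluriharmonic functions `-S - (x² - y²) + c x - d`. -/
noncomputable def hX (c d : ℝ) (Z : E2) : ℂ := -wc Z - zc Z ^ 2 + (c : ℂ) * zc Z - (d : ℂ)

/-- The pluriharmonic functions `-S + (x² - y²) + c y - d`. -/
noncomputable def hY (c d : ℝ) (Z : E2) : ℂ :=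
  -wc Z + zc Z ^ 2 - (c : ℂ) * (Complex.I * zc Z) - (d : ℂ)

theorem diff_hX (c d : ℝ) : DifferentiableOn ℂ (hX c d) B2 :=
  ((diff_wc.neg.sub (diff_zc.pow 2)).add (diff_zc.const_mul _)).sub (differentiableOn_const _)

theorem diff_hY (c d : ℝ) : DifferentiableOn ℂ (hY c d) B2 :=
  ((diff_wc.neg.add (diff_zc.pow 2)).sub ((diff_zc.const_mul _).const_mul _)).sub
    (differentiableOn_const _)

theorem hX_re (c d : ℝ) (Z : E2) :
    (hX c d Z).re = -(wc Z).re - ((zc Z).re ^ 2 - (zc Z).im ^ 2) + c * (zc Z).re - d := by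
  simp [hX, pow_two]

theorem hY_re (c d : ℝ) (Z : E2) :
    (hY c d Z).re = -(wc Z).re + ((zc Z).re ^ 2 - (zc Z).im ^ 2) + c * (zc Z).im - d := by
  simp [hY, pow_two]

theorem B2_nonempty : B2.Nonempty := ⟨0, by simp⟩

theorem negPSH_of {F : E2 → ℝ} (hF : ContinuousOn F B2) (hle : ∀ x ∈ B2, F x ≤ gr x)
    (hs : ∀ a ∈ B2, ∃ G : E2 → ℂ,
      DifferentiableOn ℂ G B2 ∧ (∀ x ∈ B2, (G x).re ≤ F x) ∧ (G a).re = F a) :
    IsNegPSH B2 (fun x => (F x : EReal)) := by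
  refine ⟨isPSH_of_support B2_nonempty hF ?_, fun x hx => ?_⟩
  · intro a ha c hc
    obtain ⟨G, h1, h2, h3⟩ := hs a ha
    exact ⟨G, h1, h2, h3 ▸ hc⟩
  · show ((F x : ℝ) : EReal) ≤ 0
    exact_mod_cast (hle x hx).trans (gr_neg hx).le

theorem negPSH_gr : IsNegPSH B2 (fun x => (gr x : EReal)) := by
  apply negPSH_of cont_gr (fun _ _ => le_rfl)
  intro a _
  refine ⟨hX (4 * (zc a).re) (2 * (zc a).re ^ 2), diff_hX _ _, fun x _ => ?_, ?_⟩
  · rw [hX_re, gr]; nlinarith [sq_nonneg ((zc x).re - (zc a).re)]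
  · rw [hX_re, gr]; ring

theorem negPSH_phir : IsNegPSH B2 (fun x => (phir x : EReal)) := by
  apply negPSH_of cont_phir (fun x _ => phir_le x)
  intro a _
  refine ⟨hX (zc a).re ((zc a).re ^ 2 / 2), diff_hX _ _, fun x _ => ?_, ?_⟩
  · rw [hX_re, phir]; nlinarith [sq_nonneg ((zc x).re - (zc a).re)]
  · rw [hX_re, phir]; ring

theorem negPSH_psir : IsNegPSH B2 (fun x => (psir x : EReal)) := by
  apply negPSH_of cont_psir (fun x _ => psir_le x)
  intro a _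
  refine ⟨hY (zc a).im ((zc a).im ^ 2 / 2), diff_hY _ _, fun x _ => ?_, ?_⟩
  · rw [hY_re, psir]; nlinarith [sq_nonneg ((zc x).im - (zc a).im)]
  · rw [hY_re, psir]; ring

theorem negPSH_re {G : E2 → ℂ} (hG : DifferentiableOn ℂ G B2) (hle : ∀ x ∈ B2, (G x).re ≤ gr x) :
    IsNegPSH B2 (fun x => (((G x).re : ℝ) : EReal)) :=
  negPSH_of (F := fun x => (G x).re) (Complex.continuous_re.comp_continuousOn hG.continuousOn) hle
    (fun _ _ => ⟨G, hG, fun _ _ => le_rfl, rfl⟩)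

/-- The complex line through the boundary point `(0, 1)` on which `zc` is constant. -/
noncomputable def slice (z₀ η : ℂ) : E2 := !₂[z₀ * η, 1 - η]

@[simp] theorem slice_zero (z₀ η : ℂ) : slice z₀ η 0 = z₀ * η := by simp [slice]

@[simp] theorem slice_one (z₀ η : ℂ) : slice z₀ η 1 = 1 - η := by simp [slice]

theorem slice_mem (z₀ η : ℂ) : slice z₀ η ∈ B2 ↔ η ∈ disc (1 + ‖z₀‖ ^ 2) := by
  rw [mem_B2, slice_zero, slice_one, norm_mul, mul_pow, ← normsq_eq (1 - η)]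
  show _ ↔ (1 + ‖z₀‖ ^ 2) * ‖η‖ ^ 2 < 2 * η.re
  have := normsq_eq η
  simp only [Complex.sub_re, Complex.one_re, Complex.sub_im, Complex.one_im]
  constructor <;> intro h <;> nlinarith

theorem zc_slice (z₀ : ℂ) {η : ℂ} (h : η ≠ 0) : zc (slice z₀ η) = z₀ := by
  rw [zc, slice_zero, slice_one, sub_sub_cancel]
  field_simp

theorem gr_slice (z₀ : ℂ) {η : ℂ} (h : η ≠ 0) : gr (slice z₀ η) = -pk (1 + ‖z₀‖ ^ 2) η := by
  have e : wc (slice z₀ η) = 2 * η⁻¹ - 1 := by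
    rw [wc, slice_one]
    have : 1 - (1 - η) = η := by ring
    rw [this]
    field_simp
    ring
  rw [gr, add_assoc, normsq_eq, zc_slice z₀ h, e, pk]
  simp only [Complex.sub_re, Complex.one_re]
  have e2 : ∀ w : ℂ, (2 * w).re = 2 * w.re := fun w => by simp
  rw [e2]
  ring

theorem slice_self {Z : E2} (h : Z ∈ B2) : slice (zc Z) (1 - Z 1) = Z := by
  have h1 := one_sub_ne h
  ext i
  fin_cases i
  · simp only [Fin.zero_eta, slice_zero, zc]
    field_simp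
  · simp

theorem continuous_slice (z₀ : ℂ) : Continuous (slice z₀) := by
  unfold slice
  fun_prop

/-- Growth along the slices improves to a pointwise bound. -/
theorem slice_bound {v : E2 → EReal} (hv : IsNegPSH B2 v) {lam : ℝ} (hlam : 0 ≤ lam)
    (h : ∀ z₀ : ℂ, ∃ A : ℝ, ∀ Z ∈ B2, zc Z = z₀ → v Z ≤ ((A + lam * gr Z : ℝ) : EReal)) :
    ∀ Z ∈ B2, v Z ≤ ((lam * gr Z : ℝ) : EReal) := by
  intro Z hZ
  obtain ⟨A, hA⟩ := h (zc Z)
  set z₀ := zc Z with hz₀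
  have hκ : 1 ≤ 1 + ‖z₀‖ ^ 2 := by nlinarith [sq_nonneg ‖z₀‖]
  have key := maxp (1 + ‖z₀‖ ^ 2) lam A hκ hlam (fun η => v (slice z₀ η))
    (hv.1.1.comp (continuous_slice z₀).continuousOn (fun η hη => (slice_mem z₀ η).mpr hη))
    (fun η hη => hv.2 _ ((slice_mem z₀ η).mpr hη))
    (by
      intro η₀ r hin P hP hle
      have e : ∀ ζ : ℂ, slice z₀ η₀ + ζ • (!₂[z₀ * r, -(r : ℂ)] : E2) = slice z₀ (η₀ + ζ * r) := by
        intro ζ
        ext i
        fin_cases i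
        · simp; ring
        · simp; ring
      apply hv.le_re (slice z₀ η₀) (!₂[z₀ * r, -(r : ℂ)] : E2) _ P hP
      · intro ζ hζ
        rw [e]; exact hle ζ hζ
      · intro ζ hζ
        rw [e]; exact (slice_mem _ _).mpr (hin ζ hζ))
    (by
      intro η hη
      have hne := disc_ne_zero hκ hη
      have := hA _ ((slice_mem z₀ η).mpr hη) (zc_slice z₀ hne)
      rw [gr_slice z₀ hne] at this
      convert this using 2
      ring)
  have hm : (1 - Z 1) ∈ disc (1 + ‖z₀‖ ^ 2) := by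
    rw [← slice_mem, hz₀, slice_self hZ]; exact hZ
  have := key _ hm
  simp only [hz₀, slice_self hZ] at this
  have e := gr_slice (zc Z) (one_sub_ne hZ)
  rw [slice_self hZ] at e
  rw [e]
  convert this using 2
  ring

/-- Negative psh functions at least as singular as `gr` lie below `gr`. -/
theorem le_gr {v : E2 → EReal} (hv : IsNegPSH B2 v) {F : E2 → ℝ} (hF : ∀ x, F x ≤ gr x) {C : ℝ}
    (h : ∀ y ∈ B2, v y ≤ (F y : EReal) + (C : EReal)) : ∀ Z ∈ B2, v Z ≤ (gr Z : EReal) := by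
  have := slice_bound hv (lam := 1) zero_le_one (fun z₀ => ⟨C, fun Z hZ _ => by
    refine (h Z hZ).trans ?_
    rw [← EReal.coe_add, EReal.coe_le_coe_iff]
    linarith [hF Z]⟩)
  simpa using this

theorem residual_eq {F : E2 → ℝ} (hF : ∀ x, F x ≤ gr x)
    (ht : ∀ a ∈ B2, ∃ (G : E2 → ℂ) (C : ℝ), DifferentiableOn ℂ G B2 ∧
      (∀ x ∈ B2, (G x).re ≤ gr x) ∧ (∀ x ∈ B2, (G x).re ≤ F x + C) ∧ (G a).re = gr a) :
    ∀ Z ∈ B2, residual B2 (fun x => (F x : EReal)) Z = (gr Z : EReal) := by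
  intro Z hZ
  apply le_antisymm
  · apply limsup_le_of_le cont_gr _ hZ
    intro x hx
    apply sSup_le
    rintro t ⟨v, hv, ⟨C, hC⟩, rfl⟩
    exact le_gr hv hF hC x hx
  · refine le_trans ?_ (le_limsup_self _ hZ)
    obtain ⟨G, C, h1, h2, h3, h4⟩ := ht Z hZ
    apply le_sSup
    refine ⟨fun x => (((G x).re : ℝ) : EReal), negPSH_re h1 h2, ⟨C, fun y hy => ?_⟩, by simp only [h4]⟩
    rw [← EReal.coe_add, EReal.coe_le_coe_iff]
    exact h3 y hy

theorem residual_gr : ∀ Z ∈ B2, residual B2 (fun x => (gr x : EReal)) Z = (gr Z : EReal) := by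
  apply residual_eq (fun _ => le_rfl)
  intro a _
  have h : ∀ x, (hX (4 * (zc a).re) (2 * (zc a).re ^ 2) x).re ≤ gr x := fun x => by
    rw [hX_re, gr]; nlinarith [sq_nonneg ((zc x).re - (zc a).re)]
  refine ⟨hX (4 * (zc a).re) (2 * (zc a).re ^ 2), 0, diff_hX _ _, fun x _ => h x,
    fun x _ => by linarith [h x], ?_⟩
  rw [hX_re, gr]; ring

theorem residual_phir : ∀ Z ∈ B2, residual B2 (fun x => (phir x : EReal)) Z = (gr Z : EReal) := by
  apply residual_eq phir_le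
  intro a _
  refine ⟨hX (4 * (zc a).re) (2 * (zc a).re ^ 2), 8 * (zc a).re ^ 2, diff_hX _ _,
    fun x _ => ?_, fun x _ => ?_, ?_⟩
  · rw [hX_re, gr]; nlinarith [sq_nonneg ((zc x).re - (zc a).re)]
  · rw [hX_re, phir]; nlinarith [sq_nonneg ((zc x).re - 4 * (zc a).re), sq_nonneg (zc a).re]
  · rw [hX_re, gr]; ring

theorem residual_psir : ∀ Z ∈ B2, residual B2 (fun x => (psir x : EReal)) Z = (gr Z : EReal) := by
  apply residual_eq psir_le
  intro a _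
  refine ⟨hY (4 * (zc a).im) (2 * (zc a).im ^ 2), 8 * (zc a).im ^ 2, diff_hY _ _,
    fun x _ => ?_, fun x _ => ?_, ?_⟩
  · rw [hY_re, gr]; nlinarith [sq_nonneg ((zc x).im - (zc a).im)]
  · rw [hY_re, psir]; nlinarith [sq_nonneg ((zc x).im - 4 * (zc a).im), sq_nonneg (zc a).im]
  · rw [hY_re, gr]; ring

/-- The circle estimate in the slices where the second coordinate is constant. -/
theorem circle_bound {v : E2 → EReal} (hv : IsNegPSH B2 v) {C : ℝ}
    (h1 : ∀ y ∈ B2, v y ≤ ((phir y + C : ℝ) : EReal))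
    (h2 : ∀ y ∈ B2, v y ≤ ((psir y + C : ℝ) : EReal)) :
    ∀ Z ∈ B2, v Z ≤ ((|C| + 5 * ‖zc Z‖ ^ 2 + 33 / 32 * gr Z : ℝ) : EReal) := by
  intro Z hZ
  have hne := one_sub_ne hZ
  set z₀ := zc Z with hz₀
  set S := (wc Z).re with hS
  have hgr : gr Z = ‖z₀‖ ^ 2 - S := by rw [gr, add_assoc, normsq_eq]; ring
  by_cases hc : S ≤ 4 * ‖z₀‖ ^ 2
  · refine (hv.2 Z hZ).trans ?_
    rw [← EReal.coe_zero, EReal.coe_le_coe_iff, hgr]
    nlinarith [abs_nonneg C, sq_nonneg ‖z₀‖]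
  push Not at hc
  have hS0 : 0 < S := by nlinarith [sq_nonneg ‖z₀‖]
  set R : ℝ := Real.sqrt S / 2 with hR
  have hR0 : 0 < R := by positivity
  have hR2 : R ^ 2 = S / 4 := by rw [hR, div_pow, Real.sq_sqrt hS0.le]; norm_num
  have hzR : ‖z₀‖ < R := by
    by_contra hh
    push Not at hh
    nlinarith
  set b : E2 := !₂[(R : ℂ) * (1 - Z 1), 0] with hb
  have c0 : ∀ ζ : ℂ, (Z + ζ • b) 0 = Z 0 + ζ * (R * (1 - Z 1)) := fun ζ => by simp [hb]
  have c1 : ∀ ζ : ℂ, (Z + ζ • b) 1 = Z 1 := fun ζ => by simp [hb]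
  have ez : ∀ ζ : ℂ, zc (Z + ζ • b) = z₀ + ζ * R := fun ζ => by
    rw [zc, c0, c1, hz₀, zc]; field_simp
  have ew : ∀ ζ : ℂ, wc (Z + ζ • b) = wc Z := fun ζ => by rw [wc, c1, wc]
  have hin : ∀ ζ : ℂ, ‖ζ‖ ≤ 1 → Z + ζ • b ∈ B2 := by
    intro ζ hζ
    rw [mem_B2_iff_gr (by rw [c1]; exact hne), gr, add_assoc, normsq_eq, ez, ew]
    have : ‖z₀ + ζ * R‖ < 2 * R := by
      calc ‖z₀ + ζ * R‖ ≤ ‖z₀‖ + ‖ζ * R‖ := norm_add_le _ _
        _ = ‖z₀‖ + ‖ζ‖ * R := by rw [norm_mul, Complex.norm_real, Real.norm_of_nonneg hR0.le]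
        _ < 2 * R := by nlinarith
    nlinarith [norm_nonneg (z₀ + ζ * R)]
  set P : ℂ → ℂ := fun ζ => ((C - S + (‖z₀‖ ^ 2 + R ^ 2) / 4 - 3 / 8 * R ^ 2 : ℝ) : ℂ)
    + ((1 / 2 : ℝ) : ℂ) * ((starRingEnd ℂ z₀) * R * ζ)
    - ((3 / 8 : ℝ) : ℂ) * ((z₀ + ζ * R) ^ 2 * ζ ^ 2 + (starRingEnd ℂ z₀) ^ 2 * ζ ^ 2
      + 2 * (starRingEnd ℂ z₀) * R * ζ) with hP
  have hPd : DifferentiableOn ℂ P (closedBall 0 1) := by
    apply Differentiable.differentiableOn
    simp only [hP]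
    fun_prop
  have key := hv.le_re Z b hin P hPd (by
    intro ζ hζ
    have a1 := h1 _ (hin ζ hζ.le)
    have a2 := h2 _ (hin ζ hζ.le)
    have hz : ζ.re ^ 2 + ζ.im ^ 2 = 1 := by rw [normsq_eq, hζ]; norm_num
    have eP : (P ζ).re = C - S + ((z₀ + ζ * R).re ^ 2 + (z₀ + ζ * R).im ^ 2) / 4
        - 3 / 4 * (((z₀ + ζ * R).re ^ 2 - (z₀ + ζ * R).im ^ 2) * (ζ.re ^ 2 - ζ.im ^ 2)) := by
      simp only [hP, ← normsq_eq z₀, pow_two, Complex.sub_re, Complex.add_re, Complex.ofReal_re,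
        Complex.mul_re, Complex.mul_im, Complex.add_im, Complex.ofReal_im, Complex.conj_re,
        Complex.conj_im, Complex.re_ofNat, Complex.im_ofNat]
      linear_combination (-(R ^ 2 / 4 - 3 / 4 * (R * (z₀.re * ζ.re + z₀.im * ζ.im)
        + R ^ 2 * (ζ.re ^ 2 + ζ.im ^ 2 + 1) / 2))) * hz
    rw [phir, ez, ew] at a1
    rw [psir, ez, ew] at a2
    rw [eP]
    set x := (z₀ + ζ * R).re
    set y := (z₀ + ζ * R).im
    have s1 : ζ.re ^ 2 - ζ.im ^ 2 ≤ 1 := by nlinarith [sq_nonneg ζ.im]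
    have s2 : -1 ≤ ζ.re ^ 2 - ζ.im ^ 2 := by nlinarith [sq_nonneg ζ.re]
    rcases le_total (y ^ 2) (x ^ 2) with hxy | hxy
    · refine a1.trans ?_
      rw [EReal.coe_le_coe_iff]
      nlinarith [mul_nonneg (sub_nonneg.mpr hxy) (sub_nonneg.mpr s1)]
    · refine a2.trans ?_
      rw [EReal.coe_le_coe_iff]
      nlinarith [mul_nonneg (sub_nonneg.mpr hxy) (sub_nonneg.mpr s2)])
  refine key.trans ?_
  rw [EReal.coe_le_coe_iff, hgr]
  have e0 : (P 0).re = C - S + (‖z₀‖ ^ 2 + R ^ 2) / 4 - 3 / 8 * R ^ 2 := by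
    simp only [hP, mul_zero, zero_mul, add_zero, ne_eq, OfNat.ofNat_ne_zero, not_false_eq_true,
      zero_pow, sub_zero, Complex.ofReal_re]
  rw [e0, hR2]
  nlinarith [le_abs_self C, sq_nonneg ‖z₀‖]

theorem rooftop_le_left {F : E2 → ℝ} (hF : ContinuousOn F B2) (w : E2 → EReal) :
    ∀ Z ∈ B2, rooftop B2 (fun x => (F x : EReal)) w Z ≤ (F Z : EReal) := by
  intro Z hZ
  apply limsup_le_of_le hF _ hZ
  intro x hx
  apply sSup_le
  rintro t ⟨v, -, hv, rfl⟩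
  exact (hv x hx).trans (min_le_left _ _)

theorem rooftop_le_right {F : E2 → ℝ} (hF : ContinuousOn F B2) (w : E2 → EReal) :
    ∀ Z ∈ B2, rooftop B2 w (fun x => (F x : EReal)) Z ≤ (F Z : EReal) := by
  intro Z hZ
  apply limsup_le_of_le hF _ hZ
  intro x hx
  apply sSup_le
  rintro t ⟨v, -, hv, rfl⟩
  exact (hv x hx).trans (min_le_right _ _)

theorem residual_rooftop_le : ∀ Z ∈ B2,
    residual B2 (rooftop B2 (fun x => (phir x : EReal)) (fun x => (psir x : EReal))) Z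
      ≤ ((33 / 32 * gr Z : ℝ) : EReal) := by
  intro Z hZ
  apply limsup_le_of_le (F := fun x => 33 / 32 * gr x) (continuousOn_const.mul cont_gr) _ hZ
  intro x hx
  apply sSup_le
  rintro t ⟨v, hv, ⟨C, hC⟩, rfl⟩
  refine slice_bound hv (by norm_num) (fun z₀ => ⟨|C| + 5 * ‖z₀‖ ^ 2, fun W hW hWz => ?_⟩) x hx
  rw [← hWz]
  apply circle_bound hv _ _ W hW
  · intro y hy
    rw [EReal.coe_add]
    exact (hC y hy).trans (add_le_add_left (rooftop_le_left cont_phir _ y hy) _)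
  · intro y hy
    rw [EReal.coe_add]
    exact (hC y hy).trans (add_le_add_left (rooftop_le_right cont_psir _ y hy) _)

theorem residual_rooftop_lt : ∀ Z ∈ B2,
    residual B2 (rooftop B2 (fun x => (phir x : EReal)) (fun x => (psir x : EReal))) Z
      < (gr Z : EReal) := by
  intro Z hZ
  refine (residual_rooftop_le Z hZ).trans_lt ?_
  rw [EReal.coe_lt_coe_iff]
  linarith [gr_neg hZ]

end Pool.Agent.Lib.MP_eb294e_an
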